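import Pool.Agent.Y537.TY.LandB
import Pool.Agent.Y272.TY.Stm
import Pool.Agent.W677.MarB
import Pool.Agent.H712R2.Par
import Pool.Agent.Helper202.Univ

/-!
Landing of radii at typical angles (helper537, job LAND of helper272).
-/

set_option autoImplicit false

open Filter Topology Set MeasureTheory Metric
open Pool.Agent.W677.Mar Pool.Agent.Y272.TY Pool.Agent.H713R2

namespace Pool.Agent.Y537.TY

lemma exists_shell {d : ℕ} (hd : 2 ≤ d) {ρ : ℝ} (h0 : 0 ≤ ρ) (h1 : ρ < 1) :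
    ∃ j : ℕ, (d : ℝ) ^ j ≤ (1 - ρ)⁻¹ ∧ (1 - ρ)⁻¹ < (d : ℝ) ^ (j + 1) := by
  have hd1 : (1 : ℝ) < d := by exact_mod_cast (by omega : 1 < d)
  exact exists_nat_pow_near ((one_le_inv₀ (by linarith)).2 (by linarith)) hd1

lemma H_all {H : ℂ → ℂ} (hH : DifferentiableOn ℂ H (ball 0 1))
    (hB : ∀ w ∈ ball (0 : ℂ) 1, ‖deriv H w‖ * (1 - ‖w‖) ≤ 6) {d : ℕ} (hd : 2 ≤ d) {θ B : ℝ}
    (hB0 : 0 ≤ B) (h : ∀ j : ℕ, ‖H (pt (rj d j) θ)‖ ≤ B * aa j) {ρ : ℝ} (hρ0 : 0 ≤ ρ)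
    (hρ1 : ρ < 1) {l : ℕ} (hl : 1 ≤ (1 - ρ) * (d : ℝ) ^ l) :
    ‖H (pt ρ θ)‖ ≤ (B + 12 * d) * aa l := by
  have hd1 : (1 : ℝ) < d := by exact_mod_cast (by omega : 1 < d)
  have hd0 : (0 : ℝ) < d := by linarith
  obtain ⟨j, hj1, hj2⟩ := exists_shell hd hρ0 hρ1
  have hρ : 0 < 1 - ρ := by linarith
  have hdj : 0 < (d : ℝ) ^ j := by positivity
  have hjl : j ≤ l := by
    have h1 : (1 - ρ)⁻¹ ≤ (d : ℝ) ^ l := by
      rw [inv_le_iff_one_le_mul₀ hρ]
      linarith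
    exact (pow_le_pow_iff_right₀ hd1).1 (hj1.trans h1)
  have h2 : 1 - ρ ≤ ((d : ℝ) ^ j)⁻¹ := by
    rw [le_inv_comm₀ hρ hdj]
    exact hj1
  have hr : rj d j ≤ ρ := by
    unfold rj
    linarith
  have hr0 := rj_nonneg hd j
  have hmv := Convex.norm_image_sub_le_of_norm_deriv_le (f := H) (C := 6 * (1 - ρ)⁻¹)
    (s := closedBall (0 : ℂ) ρ) (x := pt (rj d j) θ) (y := pt ρ θ)
    (fun x hx => hH.differentiableAt (isOpen_ball.mem_nhds (by
      rw [mem_closedBall_zero_iff] at hx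
      rw [mem_ball_zero_iff]
      linarith)))
    (fun x hx => by
      rw [mem_closedBall_zero_iff] at hx
      have h3 := hB x (by rw [mem_ball_zero_iff]; linarith)
      have h4 : ‖deriv H x‖ * (1 - ρ) ≤ 6 :=
        (mul_le_mul_of_nonneg_left (by linarith) (norm_nonneg _)).trans h3
      rwa [← div_eq_mul_inv, le_div_iff₀ hρ])
    (convex_closedBall _ _)
    (by rw [mem_closedBall_zero_iff, norm_pt _ _ hr0]; exact hr)
    (by rw [mem_closedBall_zero_iff, norm_pt _ _ hρ0])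
  have h5 : ‖pt ρ θ - pt (rj d j) θ‖ ≤ ((d : ℝ) ^ j)⁻¹ := by
    rw [pt_sub, norm_mul, norm_pt 1 θ zero_le_one, mul_one, Complex.norm_real, Real.norm_eq_abs,
      abs_of_nonneg (by linarith)]
    unfold rj
    linarith
  have h6 : ‖H (pt ρ θ) - H (pt (rj d j) θ)‖ ≤ 6 * d := by
    refine hmv.trans ?_
    calc 6 * (1 - ρ)⁻¹ * ‖pt ρ θ - pt (rj d j) θ‖
        ≤ (6 * (d : ℝ) ^ (j + 1)) * ((d : ℝ) ^ j)⁻¹ :=
          mul_le_mul (mul_le_mul_of_nonneg_left hj2.le (by norm_num)) h5 (norm_nonneg _)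
            (by positivity)
      _ = 6 * d := by
          rw [pow_succ]
          field_simp
  have h7 := norm_sub_norm_le (H (pt ρ θ)) (H (pt (rj d j) θ))
  have h8 := h j
  have h9 := mul_le_mul_of_nonneg_left (aa_mono hjl) hB0
  have h10 := aa_half l
  nlinarith

section beta

variable {d : ℕ} {β : ℂ → ℂ}

lemma cc_hasDeriv (hβ : IsBeta d β) {x : ℂ} (hx : x ∈ ball (0 : ℂ) 1) (hx0 : x ≠ 0) :
    HasDerivAt (cc β) (-(x ^ 2)⁻¹ * (β x - x * deriv β x)) x := by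
  have h1 := (hβ.diff.differentiableAt (isOpen_ball.mem_nhds hx)).hasDerivAt
  have h2 := (hasDerivAt_inv hx0).mul h1
  refine (h2.congr_deriv ?_)
  field_simp
  ring

lemma exists_H (hβ : IsBeta d β) : ∃ H, Sg β H := by
  have hN : DifferentiableOn ℂ (fun w => β w - w * deriv β w) (ball 0 1) :=
    hβ.diff.sub (differentiableOn_id.mul (hβ.diff.deriv isOpen_ball))
  have hne : ∀ w ∈ ball (0 : ℂ) 1, β w - w * deriv β w ≠ 0 := by
    intro w hw
    by_cases h0 : w = 0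
    · rw [h0, hβ.zero]
      simp
    · have hU : IsOpen (ball (0 : ℂ) 1 \ {0}) := isOpen_ball.sdiff isClosed_singleton
      have h1 := Pool.Agent.Helper202.Univ.deriv_ne_zero (f := cc β) hU
        (fun z hz => (cc_hasDeriv hβ hz.1 hz.2).differentiableAt.differentiableWithinAt)
        (fun x hx y hy hxy => hβ.inj x hx.1 y hy.1 hx.2 hy.2 hxy) (z := w) ⟨hw, h0⟩
      rw [(cc_hasDeriv hβ hw h0).deriv] at h1
      exact fun h => h1 (by rw [h, mul_zero])
  obtain ⟨H, h1, h2, h3⟩ := Pool.Agent.H712R2.M.exists_log_ball one_pos hN hne 0 (by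
    rw [hβ.zero]; simp)
  refine ⟨H, ⟨hβ.diff, hβ.zero, ?_⟩, h1, h2, h3⟩
  intro x hx y hy hxy
  refine hβ.inj x hx.1 y hy.1 hx.2 hy.2 ?_
  simp only at hxy
  rw [mul_comm, ← div_eq_mul_inv, mul_comm y⁻¹, ← div_eq_mul_inv]
  exact hxy

lemma deriv_cc_le (hβ : IsBeta d β) {H : ℂ → ℂ} (S : Sg β H) {ρ θ M : ℝ} (hρ0 : 1 / 2 ≤ ρ)
    (hρ1 : ρ < 1) (hM : ‖H (pt ρ θ)‖ ≤ M) : ‖deriv (cc β) (pt ρ θ)‖ ≤ 4 * Real.exp M := by
  have hn : ‖pt ρ θ‖ = ρ := norm_pt ρ θ (by linarith)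
  have hx : pt ρ θ ∈ ball (0 : ℂ) 1 := by rw [mem_ball_zero_iff, hn]; exact hρ1
  have hx0 : pt ρ θ ≠ 0 := by
    rw [← norm_pos_iff, hn]
    linarith
  rw [(cc_hasDeriv hβ hx hx0).deriv, ← S.eq _ hx, norm_mul, norm_neg, norm_inv, norm_pow, hn,
    Complex.norm_exp]
  have h1 : (ρ ^ 2)⁻¹ ≤ 4 := by
    rw [inv_le_comm₀ (by positivity) (by norm_num)]
    nlinarith
  have h2 : Real.exp ((H (pt ρ θ)).re) ≤ Real.exp M :=
    Real.exp_le_exp.2 (((Complex.abs_re_le_norm _).trans' (le_abs_self _)).trans hM)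
  exact mul_le_mul h1 h2 (Real.exp_pos _).le (by norm_num)

lemma cc_lip (hβ : IsBeta d β) (hd : 2 ≤ d) {θ A : ℝ}
    (hA : ∀ (l : ℕ) (ρ : ℝ), 1 / 2 ≤ ρ → ρ < 1 → 1 ≤ (1 - ρ) * (d : ℝ) ^ l →
      ‖deriv (cc β) (pt ρ θ)‖ ≤ Real.exp (A * aa l)) {l : ℕ} {s t : ℝ} (hs : 1 / 2 ≤ s)
    (hst : s ≤ t) (ht : t ≤ rj d l) :
    ‖cc β (pt t θ) - cc β (pt s θ)‖ ≤ Real.exp (A * aa l) * (t - s) := by
  have hd0 : (0 : ℝ) < d := by exact_mod_cast (by omega : 0 < d)
  have h1 := Convex.norm_image_sub_le_of_norm_hasDerivWithin_le (f := fun t : ℝ => cc β (pt t θ))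
    (f' := fun t : ℝ => deriv (cc β) (pt t θ) * pt 1 θ) (C := Real.exp (A * aa l))
    (s := Icc s t) (x := s) (y := t) (fun x hx => by
      have hx1 : x < 1 := (hx.2.trans ht).trans_lt (rj_lt hd l)
      have hx2 : 1 / 2 ≤ x := hs.trans hx.1
      have hn : ‖pt x θ‖ = x := norm_pt x θ (by linarith)
      have hm : pt x θ ∈ ball (0 : ℂ) 1 := by rw [mem_ball_zero_iff, hn]; exact hx1
      have hm0 : pt x θ ≠ 0 := by
        rw [← norm_pos_iff, hn]
        linarith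
      have h2 : HasDerivAt (fun z : ℂ => z * pt 1 θ) (pt 1 θ) ((x : ℝ) : ℂ) := by
        simpa using (hasDerivAt_id ((x : ℝ) : ℂ)).mul_const (pt 1 θ)
      have h3 : HasDerivAt (cc β) (deriv (cc β) (pt x θ)) (((x : ℝ) : ℂ) * pt 1 θ) := by
        rw [← pt_eq]
        exact (cc_hasDeriv hβ hm hm0).differentiableAt.hasDerivAt
      have h4 := (HasDerivAt.comp ((x : ℝ) : ℂ) h3 h2).comp_ofReal
      refine (h4.congr_of_eventuallyEq (Eventually.of_forall fun y => ?_)).hasDerivWithinAt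
      show cc β (pt y θ) = cc β ((y : ℂ) * pt 1 θ)
      rw [← pt_eq])
    (fun x hx => by
      rw [norm_mul, norm_pt 1 θ zero_le_one, mul_one]
      apply hA l x (hs.trans hx.1) ((hx.2.trans ht).trans_lt (rj_lt hd l))
      have h2 : ((d : ℝ) ^ l)⁻¹ ≤ 1 - x := by
        have h3 := hx.2.trans ht
        unfold rj at h3
        linarith
      rwa [inv_le_iff_one_le_mul₀ (by positivity)] at h2)
    (convex_Icc _ _) ⟨le_refl _, hst⟩ ⟨hst, le_refl _⟩
  rw [Real.norm_eq_abs, abs_of_nonneg (by linarith : 0 ≤ t - s)] at h1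
  exact h1

/-- The deterministic part. -/
lemma landing (hβ : IsBeta d β) (hd : 2 ≤ d) {θ A : ℝ} (hA0 : 0 ≤ A)
    (hA : ∀ (l : ℕ) (ρ : ℝ), 1 / 2 ≤ ρ → ρ < 1 → 1 ≤ (1 - ρ) * (d : ℝ) ^ l →
      ‖deriv (cc β) (pt ρ θ)‖ ≤ Real.exp (A * aa l)) :
    ∃ (c0 : ℂ) (A' : ℝ), A ≤ A' ∧ Tendsto (fun ρ : ℝ => cc β (pt ρ θ)) (𝓝[<] 1) (𝓝 c0) ∧
      ∀ (l : ℕ) (ρ : ℝ), 1 / 2 ≤ ρ → ρ < 1 → (1 - ρ) * (d : ℝ) ^ l ≤ 4 →
        ‖cc β (pt ρ θ) - c0‖ * (d : ℝ) ^ l ≤ Real.exp (A' * aa l) := by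
  have hd1 : (1 : ℝ) < d := by exact_mod_cast (by omega : 1 < d)
  have hd2 : (2 : ℝ) ≤ d := by exact_mod_cast hd
  have hd0 : (0 : ℝ) < d := by linarith
  let f : ℕ → ℂ := fun j => cc β (pt (rj d (j + 1)) θ)
  let D : ℕ → ℝ := fun j => Real.exp (A * aa (j + 2)) * ((d : ℝ) ^ (j + 1))⁻¹
  have hf : ∀ j, dist (f j) (f j.succ) ≤ D j := by
    intro j
    rw [dist_comm, dist_eq_norm]
    have hr : rj d (j + 2) - rj d (j + 1) ≤ ((d : ℝ) ^ (j + 1))⁻¹ := by
      unfold rj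
      have : 0 < ((d : ℝ) ^ (j + 2))⁻¹ := by positivity
      linarith
    have hr2 : rj d (j + 1) ≤ rj d (j + 2) := by
      unfold rj
      have := inv_anti₀ (by positivity : 0 < (d : ℝ) ^ (j + 1))
        (pow_le_pow_right₀ hd1.le (by omega : j + 1 ≤ j + 2))
      linarith
    refine (cc_lip hβ hd hA (rj_half hd (by omega)) hr2 le_rfl).trans ?_
    exact mul_le_mul_of_nonneg_left hr (Real.exp_pos _).le
  have hD : Summable D := by
    have h1 := ((summable_nat_add_iff 2).2 (summ d hd A hA0)).mul_left (d : ℝ)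
    refine h1.congr fun j => ?_
    simp only [D]
    rw [pow_succ (d : ℝ) (j + 1)]
    field_simp
  obtain ⟨c0, hc0⟩ := cauchySeq_tendsto_of_complete (cauchySeq_of_dist_le_of_summable D hf hD)
  have hS := summ d hd (4 * A) (by linarith)
  set S : ℝ := ∑' q : ℕ, Real.exp (4 * A * aa q) * ((d : ℝ) ^ q)⁻¹ with hSdef
  have hSq : ∀ q : ℕ, Real.exp (4 * A * aa q) * ((d : ℝ) ^ q)⁻¹ ≤ S := fun q =>
    hS.le_tsum q (fun i _ => by positivity)
  have hS1 : 1 ≤ S := by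
    refine le_trans ?_ (hSq 0)
    rw [pow_zero, inv_one, mul_one]
    exact Real.one_le_exp (by have := aa_nonneg 0; positivity)
  have hlim : ∀ n, ‖f n - c0‖ ≤ ((d : ℝ) ^ (n + 1))⁻¹ * Real.exp (2 * A * aa (n + 1)) * S := by
    intro n
    rw [← dist_eq_norm]
    refine (dist_le_tsum_of_dist_le_of_tendsto D hf hD hc0 n).trans ?_
    rw [hSdef, ← tsum_mul_left]
    apply Summable.tsum_le_tsum _ _ (hS.mul_left _)
    · intro m
      have h1 : aa (n + m + 2) ≤ 2 * (aa (n + 1) + aa m) := by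
        have := aa_add (n + 1) m
        rwa [show n + 1 + m + 1 = n + m + 2 by ring] at this
      have h2 : Real.exp (A * aa (n + m + 2)) ≤
          Real.exp (2 * A * aa (n + 1)) * Real.exp (4 * A * aa m) := by
        rw [← Real.exp_add]
        apply Real.exp_le_exp.2
        have h3 := mul_le_mul_of_nonneg_left h1 hA0
        have h4 := mul_nonneg hA0 (aa_nonneg m)
        linarith
      calc D (n + m) = Real.exp (A * aa (n + m + 2)) * ((d : ℝ) ^ (n + m + 1))⁻¹ := rfl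
        _ ≤ (Real.exp (2 * A * aa (n + 1)) * Real.exp (4 * A * aa m)) *
            ((d : ℝ) ^ (n + m + 1))⁻¹ := mul_le_mul_of_nonneg_right h2 (by positivity)
        _ = _ := by
            rw [show n + m + 1 = (n + 1) + m by ring, pow_add, mul_inv]
            ring
    · exact (summable_nat_add_iff n).2 hD |>.congr fun m => by rw [add_comm]
  -- all radii
  have hall : ∀ ρ : ℝ, 1 / 2 ≤ ρ → ρ < 1 → ∀ j : ℕ, (d : ℝ) ^ j ≤ (1 - ρ)⁻¹ →
      (1 - ρ)⁻¹ < (d : ℝ) ^ (j + 1) →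
      ‖cc β (pt ρ θ) - c0‖ ≤ (1 + S) * ((d : ℝ) ^ j)⁻¹ * Real.exp (2 * A * aa (j + 1)) := by
    intro ρ hρ0 hρ1 j hj1 hj2
    have hρ : 0 < 1 - ρ := by linarith
    have h2 : 1 - ρ ≤ ((d : ℝ) ^ j)⁻¹ := by
      rw [le_inv_comm₀ hρ (by positivity)]
      exact hj1
    have h3 : ρ ≤ rj d (j + 1) := by
      have h4 : ((d : ℝ) ^ (j + 1))⁻¹ ≤ 1 - ρ := by
        rw [inv_le_comm₀ (by positivity) hρ]
        exact hj2.le
      unfold rj
      linarith
    have h5 := cc_lip hβ hd hA hρ0 h3 le_rfl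
    have h6 : rj d (j + 1) - ρ ≤ ((d : ℝ) ^ j)⁻¹ := by
      have := rj_lt hd (j + 1)
      linarith
    have h7 : ‖cc β (pt (rj d (j + 1)) θ) - cc β (pt ρ θ)‖ ≤
        Real.exp (2 * A * aa (j + 1)) * ((d : ℝ) ^ j)⁻¹ := by
      refine h5.trans (mul_le_mul (Real.exp_le_exp.2 ?_) h6 (by linarith) (Real.exp_pos _).le)
      have := mul_nonneg hA0 (aa_nonneg (j + 1))
      linarith
    have h8 := hlim j
    have h9 : ((d : ℝ) ^ (j + 1))⁻¹ ≤ ((d : ℝ) ^ j)⁻¹ :=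
      inv_anti₀ (by positivity) (pow_le_pow_right₀ hd1.le (by omega))
    have h10 : ((d : ℝ) ^ (j + 1))⁻¹ * Real.exp (2 * A * aa (j + 1)) * S ≤
        ((d : ℝ) ^ j)⁻¹ * Real.exp (2 * A * aa (j + 1)) * S :=
      mul_le_mul_of_nonneg_right (mul_le_mul_of_nonneg_right h9 (Real.exp_pos _).le) (by linarith)
    have h11 : ‖cc β (pt ρ θ) - c0‖ ≤ ‖cc β (pt (rj d (j + 1)) θ) - cc β (pt ρ θ)‖ + ‖f j - c0‖ := by
      have h12 : cc β (pt ρ θ) - c0 = -(cc β (pt (rj d (j + 1)) θ) - cc β (pt ρ θ)) + (f j - c0) := by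
        simp only [f]
        ring
      rw [h12]
      refine (norm_add_le _ _).trans ?_
      rw [norm_neg]
    have h13 : (1 + S) * ((d : ℝ) ^ j)⁻¹ * Real.exp (2 * A * aa (j + 1)) =
        Real.exp (2 * A * aa (j + 1)) * ((d : ℝ) ^ j)⁻¹ +
          ((d : ℝ) ^ j)⁻¹ * Real.exp (2 * A * aa (j + 1)) * S := by ring
    linarith
  set K : ℝ := (1 + S) * (S + (d : ℝ) ^ 2) with hK
  have hK1 : 1 ≤ K := by
    rw [hK]
    nlinarith [sq_nonneg (d : ℝ)]
  have hlK : 0 ≤ Real.log K := Real.log_nonneg hK1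
  have hfin : ∀ (l : ℕ) (ρ : ℝ), 1 / 2 ≤ ρ → ρ < 1 → (1 - ρ) * (d : ℝ) ^ l ≤ 4 →
      ‖cc β (pt ρ θ) - c0‖ * (d : ℝ) ^ l ≤ Real.exp ((4 * A + 2 * Real.log K) * aa l) := by
    intro l ρ hρ0 hρ1 hl
    have hρ : 0 < 1 - ρ := by linarith
    obtain ⟨j, hj1, hj2⟩ := exists_shell hd (by linarith) hρ1
    have h1 := hall ρ hρ0 hρ1 j hj1 hj2
    have hdl : 0 < (d : ℝ) ^ l := by positivity
    have hdj : 0 < (d : ℝ) ^ j := by positivity
    have hlj : l ≤ j + 2 := by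
      have h2 : (d : ℝ) ^ l ≤ 4 * (1 - ρ)⁻¹ := by
        rw [← div_eq_mul_inv, le_div_iff₀ hρ]
        linarith
      have h3 : (d : ℝ) ^ l < (d : ℝ) ^ (j + 3) := by
        calc (d : ℝ) ^ l ≤ 4 * (1 - ρ)⁻¹ := h2
          _ < 4 * (d : ℝ) ^ (j + 1) := by linarith
          _ ≤ (d : ℝ) ^ 2 * (d : ℝ) ^ (j + 1) :=
              mul_le_mul_of_nonneg_right (by nlinarith) (by positivity)
          _ = (d : ℝ) ^ (j + 3) := by ring
      have := (pow_lt_pow_iff_right₀ hd1).1 h3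
      omega
    have h4 : ‖cc β (pt ρ θ) - c0‖ * (d : ℝ) ^ l ≤ K * Real.exp (4 * A * aa l) := by
      refine (mul_le_mul_of_nonneg_right h1 hdl.le).trans ?_
      rcases le_or_gt l j with hc | hc
      · obtain ⟨q, rfl⟩ : ∃ q, j = l + q := ⟨j - l, by omega⟩
        have h5 := aa_add l q
        have h6 : Real.exp (2 * A * aa (l + q + 1)) ≤
            Real.exp (4 * A * aa l) * Real.exp (4 * A * aa q) := by
          rw [← Real.exp_add]
          apply Real.exp_le_exp.2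
          have h7 := mul_le_mul_of_nonneg_left h5 hA0
          linarith
        calc (1 + S) * ((d : ℝ) ^ (l + q))⁻¹ * Real.exp (2 * A * aa (l + q + 1)) * (d : ℝ) ^ l
            ≤ (1 + S) * ((d : ℝ) ^ (l + q))⁻¹ *
              (Real.exp (4 * A * aa l) * Real.exp (4 * A * aa q)) * (d : ℝ) ^ l :=
              mul_le_mul_of_nonneg_right (mul_le_mul_of_nonneg_left h6
                (by positivity)) hdl.le
          _ = (1 + S) * (Real.exp (4 * A * aa q) * ((d : ℝ) ^ q)⁻¹) * Real.exp (4 * A * aa l) := by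
              rw [pow_add, mul_inv]
              field_simp
          _ ≤ (1 + S) * S * Real.exp (4 * A * aa l) :=
              mul_le_mul_of_nonneg_right (mul_le_mul_of_nonneg_left (hSq q) (by linarith))
                (Real.exp_pos _).le
          _ ≤ K * Real.exp (4 * A * aa l) := by
              apply mul_le_mul_of_nonneg_right _ (Real.exp_pos _).le
              rw [hK]
              nlinarith [sq_nonneg (d : ℝ)]
      · have h5 : aa (j + 1) ≤ aa l := aa_mono (by omega)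
        have h6 : Real.exp (2 * A * aa (j + 1)) ≤ Real.exp (4 * A * aa l) := by
          apply Real.exp_le_exp.2
          have h7 := mul_le_mul_of_nonneg_left h5 hA0
          have h8 := mul_nonneg hA0 (aa_nonneg l)
          linarith
        have h7 : (d : ℝ) ^ l ≤ (d : ℝ) ^ 2 * (d : ℝ) ^ j := by
          rw [← pow_add]
          exact pow_le_pow_right₀ hd1.le (by omega)
        calc (1 + S) * ((d : ℝ) ^ j)⁻¹ * Real.exp (2 * A * aa (j + 1)) * (d : ℝ) ^ l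
            ≤ (1 + S) * ((d : ℝ) ^ j)⁻¹ * Real.exp (4 * A * aa l) * ((d : ℝ) ^ 2 * (d : ℝ) ^ j) :=
              mul_le_mul (mul_le_mul_of_nonneg_left h6 (by positivity)) h7 hdl.le (by positivity)
          _ = (1 + S) * (d : ℝ) ^ 2 * Real.exp (4 * A * aa l) := by
              field_simp
          _ ≤ K * Real.exp (4 * A * aa l) := by
              apply mul_le_mul_of_nonneg_right _ (Real.exp_pos _).le
              rw [hK]
              nlinarith [sq_nonneg (d : ℝ)]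
    refine h4.trans ?_
    have h5 : K ≤ Real.exp (2 * Real.log K * aa l) := by
      calc K = Real.exp (Real.log K) := (Real.exp_log (by linarith)).symm
        _ ≤ Real.exp (2 * Real.log K * aa l) := by
            apply Real.exp_le_exp.2
            have := aa_half l
            nlinarith
    calc K * Real.exp (4 * A * aa l) ≤ Real.exp (2 * Real.log K * aa l) * Real.exp (4 * A * aa l) :=
          mul_le_mul_of_nonneg_right h5 (Real.exp_pos _).le
      _ = Real.exp ((4 * A + 2 * Real.log K) * aa l) := by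
          rw [← Real.exp_add]
          congr 1
          ring
  refine ⟨c0, 4 * A + 2 * Real.log K, by linarith, ?_, hfin⟩
  rw [Metric.tendsto_nhds]
  intro ε hε
  have h1 := (summ d hd (4 * A + 2 * Real.log K) (by positivity)).tendsto_atTop_zero
  obtain ⟨l, hl⟩ := (h1.eventually (gt_mem_nhds hε)).exists
  have hdl : 0 < (d : ℝ) ^ l := by positivity
  have h2 : max (1 / 2) (1 - 4 * ((d : ℝ) ^ l)⁻¹) < 1 := by
    apply max_lt (by norm_num)
    have : 0 < ((d : ℝ) ^ l)⁻¹ := by positivity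
    linarith
  filter_upwards [Ioo_mem_nhdsLT h2] with ρ hρ
  have h3 : 1 / 2 < ρ := (le_max_left _ _).trans_lt hρ.1
  have h4 : 1 - 4 * ((d : ℝ) ^ l)⁻¹ < ρ := (le_max_right _ _).trans_lt hρ.1
  have h5 : (1 - ρ) * (d : ℝ) ^ l ≤ 4 := by
    have h6 : 1 - ρ ≤ 4 * ((d : ℝ) ^ l)⁻¹ := by linarith
    calc (1 - ρ) * (d : ℝ) ^ l ≤ (4 * ((d : ℝ) ^ l)⁻¹) * (d : ℝ) ^ l :=
          mul_le_mul_of_nonneg_right h6 hdl.le
      _ = 4 := by field_simp
  have h6 := hfin l ρ h3.le hρ.2 h5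
  rw [dist_eq_norm]
  refine lt_of_le_of_lt ?_ hl
  rw [← div_eq_mul_inv, le_div_iff₀ hdl]
  exact h6

end beta

lemma aa_eq (n : ℕ) : aa n = Pool.Agent.Y272.TY.aa n := rfl

/-- radial growth of the derivative and landing for almost every angle -/
theorem t : St_Land := by
  intro d β hd hβ
  obtain ⟨H, S⟩ := exists_H hβ
  have hd0 : (0 : ℝ) < d := by exact_mod_cast (by omega : 0 < d)
  refine (ae_bound S.dH S.H0 (fun w hw => H_bloch S hw) d hd).mono ?_
  rintro θ ⟨B, hB0, hB⟩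
  have hA : ∀ (l : ℕ) (ρ : ℝ), 1 / 2 ≤ ρ → ρ < 1 → 1 ≤ (1 - ρ) * (d : ℝ) ^ l →
      ‖deriv (cc β) (pt ρ θ)‖ ≤ Real.exp ((B + 12 * d + 4) * aa l) := by
    intro l ρ hρ0 hρ1 hl
    have h1 := H_all S.dH (fun w hw => H_bloch S hw) hd hB0 hB (by linarith) hρ1 hl
    refine (deriv_cc_le hβ S hρ0 hρ1 h1).trans ?_
    have h2 : (4 : ℝ) ≤ Real.exp (4 * aa l) := by
      have h3 := aa_half l
      have h4 : Real.exp 2 ≤ Real.exp (4 * aa l) := Real.exp_le_exp.2 (by linarith)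
      have h5 : (2 : ℝ) < Real.exp 1 := by
        have := Real.exp_one_gt_d9
        linarith
      have h6 : Real.exp 2 = Real.exp 1 * Real.exp 1 := by rw [← Real.exp_add]; norm_num
      nlinarith
    calc 4 * Real.exp ((B + 12 * d) * aa l) ≤ Real.exp (4 * aa l) * Real.exp ((B + 12 * d) * aa l) :=
          mul_le_mul_of_nonneg_right h2 (Real.exp_pos _).le
      _ = Real.exp ((B + 12 * d + 4) * aa l) := by
          rw [← Real.exp_add]
          congr 1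
          ring
  obtain ⟨c0, A', hA', h1, h2⟩ := landing hβ hd (by positivity) hA
  refine ⟨c0, A', le_trans (by positivity) hA', h1, fun l ρ hρ0 hρ1 hl => ?_, h2⟩
  refine (hA l ρ hρ0 hρ1 hl).trans (Real.exp_le_exp.2 ?_)
  exact mul_le_mul_of_nonneg_right hA' (aa_nonneg l)

end Pool.Agent.Y537.TY
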