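import Mathlib

/-!
Landing of radii at typical angles: real analysis (helper537, job LAND of helper272).
-/

set_option autoImplicit false

open Filter Topology Set

namespace Pool.Agent.Y537.TY

/-- the errors -/
noncomputable def aa (n : ℕ) : ℝ := √(((n : ℝ) + 1) * Real.log (n + 2))

lemma log_pos2 (n : ℕ) : 0 < Real.log ((n : ℝ) + 2) :=
  Real.log_pos (by have : (0 : ℝ) ≤ n := Nat.cast_nonneg n; linarith)

lemma aa_nonneg (n : ℕ) : 0 ≤ aa n := Real.sqrt_nonneg _

lemma aa_sq (n : ℕ) : aa n ^ 2 = ((n : ℝ) + 1) * Real.log (n + 2) := by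
  rw [aa, Real.sq_sqrt]
  exact mul_nonneg (by positivity) (log_pos2 n).le

lemma log_ge (n : ℕ) : (1 : ℝ) / 2 ≤ Real.log ((n : ℝ) + 2) := by
  have h1 : Real.log 2 ≤ Real.log ((n : ℝ) + 2) :=
    Real.log_le_log (by norm_num) (by have : (0 : ℝ) ≤ n := Nat.cast_nonneg n; linarith)
  have h2 := Real.log_two_gt_d9
  linarith

lemma aa_half (n : ℕ) : (1 : ℝ) / 2 ≤ aa n := by
  rw [aa]
  apply Real.le_sqrt_of_sq_le
  have h1 := log_ge n
  have h2 : (0 : ℝ) ≤ n := Nat.cast_nonneg n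
  nlinarith

lemma aa_mono {m n : ℕ} (h : m ≤ n) : aa m ≤ aa n := by
  rw [aa, aa]
  apply Real.sqrt_le_sqrt
  have h1 : (m : ℝ) ≤ n := by exact_mod_cast h
  have h2 : Real.log ((m : ℝ) + 2) ≤ Real.log ((n : ℝ) + 2) :=
    Real.log_le_log (by positivity) (by linarith)
  exact mul_le_mul (by linarith) h2 (log_pos2 m).le (by positivity)

lemma aa_add (l q : ℕ) : aa (l + q + 1) ≤ 2 * (aa l + aa q) := by
  have h0 := aa_nonneg l
  have h1 := aa_nonneg q
  apply le_of_sq_le_sq _ (by positivity)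
  rw [aa_sq]
  have hl := log_pos2 l
  have hq := log_pos2 q
  have hln : (0 : ℝ) ≤ l := Nat.cast_nonneg l
  have hqn : (0 : ℝ) ≤ q := Nat.cast_nonneg q
  have e1 : Real.log (((l + q + 1 : ℕ) : ℝ) + 2) ≤ Real.log ((l : ℝ) + 2) + Real.log ((q : ℝ) + 2) := by
    rw [← Real.log_mul (by positivity) (by positivity)]
    apply Real.log_le_log (by positivity)
    push_cast
    nlinarith
  have e2 : (((l + q + 1 : ℕ) : ℝ) + 1) = ((l : ℝ) + 1) + ((q : ℝ) + 1) := by push_cast; ring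
  rw [e2]
  have e3 : (((l : ℝ) + 1) + ((q : ℝ) + 1)) * Real.log (((l + q + 1 : ℕ) : ℝ) + 2) ≤
      (((l : ℝ) + 1) + ((q : ℝ) + 1)) * (Real.log ((l : ℝ) + 2) + Real.log ((q : ℝ) + 2)) :=
    mul_le_mul_of_nonneg_left e1 (by positivity)
  have sl := aa_sq l
  have sq := aa_sq q
  have e4 : ((l : ℝ) + 1) * Real.log ((q : ℝ) + 2) + ((q : ℝ) + 1) * Real.log ((l : ℝ) + 2) ≤
      ((l : ℝ) + 1) * Real.log ((l : ℝ) + 2) + ((q : ℝ) + 1) * Real.log ((q : ℝ) + 2) := by
    rcases le_total l q with h | h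
    · have h2 : (l : ℝ) ≤ q := by exact_mod_cast h
      have h3 : Real.log ((l : ℝ) + 2) ≤ Real.log ((q : ℝ) + 2) :=
        Real.log_le_log (by positivity) (by linarith)
      nlinarith
    · have h2 : (q : ℝ) ≤ l := by exact_mod_cast h
      have h3 : Real.log ((q : ℝ) + 2) ≤ Real.log ((l : ℝ) + 2) :=
        Real.log_le_log (by positivity) (by linarith)
      nlinarith
  nlinarith [mul_nonneg h0 h1, sq_nonneg (aa l), sq_nonneg (aa q)]

/-- The errors are of subexponential growth. -/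
lemma summ (d : ℕ) (hd : 2 ≤ d) (a : ℝ) (ha : 0 ≤ a) :
    Summable fun q : ℕ => Real.exp (a * aa q) * ((d : ℝ) ^ q)⁻¹ := by
  have hd1 : (1 : ℝ) < d := by exact_mod_cast (by omega : 1 < d)
  have hlog : 0 < Real.log d := Real.log_pos hd1
  have hd0 : (0 : ℝ) < d := by linarith
  -- the parameter
  obtain ⟨ε, hε0, hε⟩ : ∃ ε : ℝ, 0 < ε ∧ a * ε ≤ Real.log d / 2 := by
    refine ⟨Real.log d / (2 * (a + 1)), by positivity, ?_⟩
    rw [← mul_div_assoc, div_le_div_iff₀ (by positivity) (by norm_num)]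
    nlinarith
  obtain ⟨P, hP⟩ : ∃ P : ℕ, a / (4 * ε) ≤ P := exists_nat_ge _
  obtain ⟨e1, he1⟩ : ∃ e1, e1 = Real.exp (Real.log d / 2) := ⟨_, rfl⟩
  have he0 : 0 < e1 := he1 ▸ Real.exp_pos _
  have he11 : 1 < e1 := by
    rw [he1]
    exact Real.one_lt_exp_iff.2 (by linarith)
  have hes : e1 * e1 = d := by
    rw [he1, ← Real.exp_add, add_halves, Real.exp_log hd0]
  have key : ∀ q : ℕ, Real.exp (a * aa q) * ((d : ℝ) ^ q)⁻¹ ≤
      e1 ^ 3 * ((((q + 2 : ℕ) : ℝ) ^ P) * (e1⁻¹) ^ (q + 2)) := by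
    intro q
    have hL := log_pos2 q
    have hqn : (0 : ℝ) ≤ q := Nat.cast_nonneg q
    have h1 : aa q ≤ ε * (q + 1) + Real.log (q + 2) / (4 * ε) := by
      apply le_of_sq_le_sq _ (by positivity)
      rw [aa_sq]
      have h2 := sq_nonneg (ε * (q + 1) - Real.log (q + 2) / (4 * ε))
      have h3 : (ε * (q + 1) + Real.log (q + 2) / (4 * ε)) ^ 2 =
          (ε * (q + 1) - Real.log (q + 2) / (4 * ε)) ^ 2 + (q + 1) * Real.log (q + 2) := by
        field_simp
        ring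
      linarith
    have h2 : a * aa q ≤ (Real.log d / 2) * (q + 1) + P * Real.log (q + 2) := by
      have h3 := mul_le_mul_of_nonneg_left h1 ha
      have h4 : a * (ε * (q + 1) + Real.log (q + 2) / (4 * ε)) =
          (a * ε) * (q + 1) + (a / (4 * ε)) * Real.log (q + 2) := by
        field_simp
      rw [h4] at h3
      have h5 : (a * ε) * ((q : ℝ) + 1) ≤ (Real.log d / 2) * (q + 1) :=
        mul_le_mul_of_nonneg_right hε (by positivity)
      have h6 : (a / (4 * ε)) * Real.log ((q : ℝ) + 2) ≤ P * Real.log (q + 2) :=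
        mul_le_mul_of_nonneg_right hP hL.le
      linarith
    have h3 : Real.exp (a * aa q) ≤ e1 ^ (q + 1) * ((q + 2 : ℕ) : ℝ) ^ P := by
      refine (Real.exp_le_exp.2 h2).trans ?_
      rw [Real.exp_add]
      apply le_of_eq
      congr 1
      · rw [he1, ← Real.exp_nat_mul]
        congr 1
        push_cast
        ring
      · rw [← Real.exp_log (by positivity : (0 : ℝ) < ((q + 2 : ℕ) : ℝ)), ← Real.exp_nat_mul]
        push_cast
        rfl
    have hdq : 0 < (d : ℝ) ^ q := by positivity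
    calc Real.exp (a * aa q) * ((d : ℝ) ^ q)⁻¹
        ≤ (e1 ^ (q + 1) * ((q + 2 : ℕ) : ℝ) ^ P) * ((d : ℝ) ^ q)⁻¹ :=
          mul_le_mul_of_nonneg_right h3 (by positivity)
      _ = e1 ^ 3 * ((((q + 2 : ℕ) : ℝ) ^ P) * (e1⁻¹) ^ (q + 2)) := by
          rw [← hes, mul_pow, inv_pow]
          field_simp
          ring
  have hs := summable_pow_mul_geometric_of_norm_lt_one (R := ℝ) P (r := e1⁻¹) (by
    rw [Real.norm_eq_abs, abs_of_pos (by positivity)]
    exact inv_lt_one_of_one_lt₀ he11)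
  have hs2 := ((summable_nat_add_iff 2).2 hs).mul_left (e1 ^ 3)
  exact Summable.of_nonneg_of_le (fun q => by positivity) key hs2

end Pool.Agent.Y537.TY
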