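import Pool.Agent.Y537.TY.LandA
import Pool.Agent.W677.MarM

/-!
Landing of radii at typical angles: almost everywhere bounds (helper537, job LAND of helper272).
-/

set_option autoImplicit false

open Filter Topology Set MeasureTheory Metric
open Pool.Agent.W677.Mar

namespace Pool.Agent.Y537.TY

lemma int_le {f : ℝ → ℝ} (hf : Continuous f) (hper : Function.Periodic f (2 * Real.pi))
    (h0 : ∀ θ, 0 ≤ f θ) {M : ℝ} (hM : ∫ θ in (0 : ℝ)..(2 * Real.pi), f θ ≤ M) (k : ℤ) :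
    ∫⁻ θ in Ioc (0 + k • (2 * Real.pi)) (0 + (k + 1) • (2 * Real.pi)), ENNReal.ofReal (f θ) ≤
      ENNReal.ofReal M := by
  have hi : IntegrableOn f (Ioc (0 + k • (2 * Real.pi)) (0 + (k + 1) • (2 * Real.pi))) :=
    (hf.integrableOn_Icc).mono_set Ioc_subset_Icc_self
  rw [← ofReal_integral_eq_lintegral_ofReal hi (ae_of_all _ h0)]
  apply ENNReal.ofReal_le_ofReal
  have h1 : (0 + (k + 1) • (2 * Real.pi) : ℝ) = (0 + k • (2 * Real.pi)) + 2 * Real.pi := by
    rw [add_smul, one_smul]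
    ring
  rw [h1, ← intervalIntegral.integral_of_le (by linarith [Real.pi_pos]),
    hper.intervalIntegral_add_eq _ 0, zero_add]
  exact hM

lemma ae_all {P : ℝ → Prop} (h : ∀ k : ℤ, ∀ᵐ θ ∂(volume.restrict
    (Ioc (0 + k • (2 * Real.pi)) (0 + (k + 1) • (2 * Real.pi)))), P θ) : ∀ᵐ θ : ℝ, P θ := by
  have h1 := (ae_restrict_iUnion_iff (μ := (volume : Measure ℝ))
    (fun k : ℤ => Ioc (0 + k • (2 * Real.pi)) (0 + (k + 1) • (2 * Real.pi))) P).2 h
  rw [iUnion_Ioc_add_zsmul (by linarith [Real.pi_pos] : 0 < 2 * Real.pi) 0,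
    Measure.restrict_univ] at h1
  exact h1

/-- the radii -/
noncomputable def rj (d j : ℕ) : ℝ := 1 - ((d : ℝ) ^ j)⁻¹

lemma rj_zero (d : ℕ) : rj d 0 = 0 := by simp [rj]

lemma rj_lt {d : ℕ} (hd : 2 ≤ d) (j : ℕ) : rj d j < 1 := by
  have : (0 : ℝ) < d := by exact_mod_cast (by omega : 0 < d)
  unfold rj
  have : 0 < ((d : ℝ) ^ j)⁻¹ := by positivity
  linarith

lemma rj_nonneg {d : ℕ} (hd : 2 ≤ d) (j : ℕ) : 0 ≤ rj d j := by
  have h1 : (1 : ℝ) ≤ d := by exact_mod_cast (by omega : 1 ≤ d)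
  unfold rj
  have := inv_le_one_of_one_le₀ (one_le_pow₀ h1 (n := j))
  linarith

lemma rj_half {d : ℕ} (hd : 2 ≤ d) {j : ℕ} (hj : 1 ≤ j) : 1 / 2 ≤ rj d j := by
  have h1 : (2 : ℝ) ≤ d := by exact_mod_cast hd
  have h2 : (2 : ℝ) ≤ (d : ℝ) ^ j := by
    calc (2 : ℝ) = 2 ^ 1 := by norm_num
      _ ≤ 2 ^ j := pow_le_pow_right₀ (by norm_num) hj
      _ ≤ (d : ℝ) ^ j := pow_le_pow_left₀ (by norm_num) h1 j
  have h3 := inv_anti₀ (by norm_num : (0 : ℝ) < 2) h2
  unfold rj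
  linarith

/-- Almost everywhere growth of a Bloch function. -/
theorem ae_bound {H : ℂ → ℂ} (hH : DifferentiableOn ℂ H (ball 0 1)) (H0 : H 0 = 0)
    (hB : ∀ w ∈ ball (0 : ℂ) 1, ‖deriv H w‖ * (1 - ‖w‖) ≤ 6) (d : ℕ) (hd : 2 ≤ d) :
    ∀ᵐ θ : ℝ, ∃ B : ℝ, 0 ≤ B ∧ ∀ j : ℕ, ‖H (pt (rj d j) θ)‖ ≤ B * aa j := by
  have hpi := Real.pi_pos
  have hd1 : (1 : ℝ) < d := by exact_mod_cast (by omega : 1 < d)
  have hlog : 0 < Real.log d := Real.log_pos hd1
  let f : ℕ → ℝ → ℝ := fun j θ =>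
    Real.exp ((1 / 288) * ‖H (pt (rj d (j + 1)) θ)‖ ^ 2 / lam (rj d (j + 1) ^ 2))
  have hr0 : ∀ j, 0 < rj d (j + 1) := fun j =>
    lt_of_lt_of_le (by norm_num) (rj_half hd (by omega : 1 ≤ j + 1))
  have hr1 : ∀ j, rj d (j + 1) < 1 := fun j => rj_lt hd _
  have hlam : ∀ j, 0 < lam (rj d (j + 1) ^ 2) := fun j =>
    lam_pos (by have := hr0 j; positivity) (pow_lt_one₀ (hr0 j).le (hr1 j) two_ne_zero)
  have hfc : ∀ j, Continuous (f j) := fun j =>
    Real.continuous_exp.comp ((continuous_const.mul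
      ((cont_circ hH (hr0 j).le (hr1 j)).norm.pow 2)).div_const _)
  have hfp : ∀ j, Function.Periodic (f j) (2 * Real.pi) := fun j θ => by
    simp only [f]
    rw [pt_periodic (rj d (j + 1)) θ]
  have hfI : ∀ j, ∫ θ in (0 : ℝ)..(2 * Real.pi), f j θ ≤ 4 * Real.pi := fun j => by
    have h1 := bloch_exp hH H0 hB (c := 1 / 288) (by norm_num) (by norm_num) (hr0 j) (hr1 j)
    refine h1.trans (le_of_eq ?_)
    norm_num
    ring
  let F : ℝ → ENNReal := fun θ => ∑' j : ℕ, ENNReal.ofReal ((((j : ℝ) + 2) ^ 2)⁻¹ * f j θ)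
  have hgc : ∀ j : ℕ, Continuous fun θ => (((j : ℝ) + 2) ^ 2)⁻¹ * f j θ := fun j =>
    continuous_const.mul (hfc j)
  have hsum : Summable fun j : ℕ => (((j : ℝ) + 2) ^ 2)⁻¹ * (4 * Real.pi) := by
    apply Summable.mul_right
    have h1 := (summable_nat_add_iff 2).2 (Real.summable_nat_pow_inv.2 (by norm_num : 1 < 2))
    refine h1.congr fun j => ?_
    push_cast
    rfl
  have hF : ∀ k : ℤ, ∀ᵐ θ ∂(volume.restrict
      (Ioc (0 + k • (2 * Real.pi)) (0 + (k + 1) • (2 * Real.pi)))), F θ < ⊤ := by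
    intro k
    apply ae_lt_top'
    · exact AEMeasurable.ennreal_tsum fun j => (hgc j).measurable.ennreal_ofReal.aemeasurable
    · rw [lintegral_tsum fun j => (hgc j).measurable.ennreal_ofReal.aemeasurable]
      have h1 : ∀ j : ℕ, ∫⁻ θ in Ioc (0 + k • (2 * Real.pi)) (0 + (k + 1) • (2 * Real.pi)),
          ENNReal.ofReal ((((j : ℝ) + 2) ^ 2)⁻¹ * f j θ) ≤
            ENNReal.ofReal ((((j : ℝ) + 2) ^ 2)⁻¹ * (4 * Real.pi)) := by
        intro j
        apply int_le (hgc j) (fun θ => by simp only [hfp j θ])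
        · intro θ
          have : 0 ≤ f j θ := (Real.exp_pos _).le
          positivity
        · rw [intervalIntegral.integral_const_mul]
          exact mul_le_mul_of_nonneg_left (hfI j) (by positivity)
      refine ne_top_of_le_ne_top ?_ (ENNReal.tsum_le_tsum h1)
      rw [← ENNReal.ofReal_tsum_of_nonneg (fun j => by positivity) hsum]
      exact ENNReal.ofReal_ne_top
  refine (ae_all hF).mono fun θ hθ => ?_
  set M : ℝ := max (F θ).toReal 1 with hM
  have hM1 : 1 ≤ M := le_max_right _ _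
  have hlM : 0 ≤ Real.log M := Real.log_nonneg hM1
  have h1 : ∀ j, f j θ ≤ M * ((j : ℝ) + 2) ^ 2 := by
    intro j
    have h2 : ENNReal.ofReal ((((j : ℝ) + 2) ^ 2)⁻¹ * f j θ) ≤ F θ :=
      ENNReal.le_tsum (f := fun j : ℕ => ENNReal.ofReal ((((j : ℝ) + 2) ^ 2)⁻¹ * f j θ)) j
    have h3 : (((j : ℝ) + 2) ^ 2)⁻¹ * f j θ ≤ M :=
      ((ENNReal.ofReal_le_iff_le_toReal hθ.ne).1 h2).trans (le_max_left _ _)
    have h4 : 0 < ((j : ℝ) + 2) ^ 2 := by positivity
    rw [inv_mul_le_iff₀ h4] at h3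
    linarith
  refine ⟨√(288 * Real.log d * (2 * Real.log M + 2)), Real.sqrt_nonneg _, fun j => ?_⟩
  rcases Nat.eq_zero_or_pos j with hj | hj
  · subst hj
    have : pt (rj d 0) θ = 0 := by rw [rj_zero, pt_eq]; simp
    rw [this, H0, norm_zero]
    exact mul_nonneg (Real.sqrt_nonneg _) (aa_nonneg _)
  · obtain ⟨j, rfl⟩ : ∃ i, j = i + 1 := ⟨j - 1, by omega⟩
    refine le_trans ?_ (mul_le_mul_of_nonneg_left (aa_mono (Nat.le_succ j)) (Real.sqrt_nonneg _))
    apply le_of_sq_le_sq _ (mul_nonneg (Real.sqrt_nonneg _) (aa_nonneg _))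
    rw [mul_pow, aa_sq, Real.sq_sqrt (by positivity)]
    have h2 := h1 j
    have hj2 : (0 : ℝ) < (j : ℝ) + 2 := by positivity
    have h3 : (1 / 288) * ‖H (pt (rj d (j + 1)) θ)‖ ^ 2 / lam (rj d (j + 1) ^ 2) ≤
        Real.log M + 2 * Real.log ((j : ℝ) + 2) := by
      have h4 := Real.log_le_log (Real.exp_pos _) h2
      rw [Real.log_exp, Real.log_mul (by linarith) (by positivity), Real.log_pow] at h4
      exact_mod_cast h4
    have h5 : lam (rj d (j + 1) ^ 2) ≤ ((j : ℝ) + 1) * Real.log d := by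
      have h6 : ((d : ℝ) ^ (j + 1))⁻¹ ≤ 1 - rj d (j + 1) ^ 2 := by
        have h7 : rj d (j + 1) ^ 2 ≤ rj d (j + 1) := by
          have := hr0 j
          have := hr1 j
          nlinarith
        have h8 : rj d (j + 1) = 1 - ((d : ℝ) ^ (j + 1))⁻¹ := rfl
        linarith
      have h9 : 0 < ((d : ℝ) ^ (j + 1))⁻¹ := by positivity
      have h10 := Real.log_le_log h9 h6
      rw [Real.log_inv, Real.log_pow] at h10
      unfold lam
      push_cast at h10
      linarith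
    have hl := hlam j
    rw [div_le_iff₀ hl] at h3
    have hlg := log_ge j
    have h11 : Real.log M + 2 * Real.log ((j : ℝ) + 2) ≤
        (2 * Real.log M + 2) * Real.log ((j : ℝ) + 2) := by nlinarith
    have h12 : (Real.log M + 2 * Real.log ((j : ℝ) + 2)) * lam (rj d (j + 1) ^ 2) ≤
        ((2 * Real.log M + 2) * Real.log ((j : ℝ) + 2)) * (((j : ℝ) + 1) * Real.log d) :=
      mul_le_mul h11 h5 hl.le (by have := log_pos2 j; positivity)
    nlinarith

end Pool.Agent.Y537.TY
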